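import Pool.Agent.W488.Segre.Map

/-!
The Segre morphism is a closed immersion.
-/

open MvPolynomial AlgebraicGeometry CategoryTheory Limits TopologicalSpace TensorProduct

namespace Pool.Agent.W488.Segre

open Pool.Agent.Helper198.Sch Pool.Agent.Helper198.Sch.V

attribute [local instance] MvPolynomial.gradedAlgebra

variable {σ τ : Type} {R : Type} [CommRing R] (J : HI σ R) (J' : HI τ R)

theorem aeval_mem_sub {A B : Type} [CommRing A] [CommRing B] [Algebra A B] {ι : Type}
    (S : Subalgebra A B) (u : ι → B) (hu : ∀ s, u s ∈ S) (q : MvPolynomial ι A) : aeval u q ∈ S := by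
  induction q using MvPolynomial.induction_on with
  | C a => rw [aeval_C]; exact S.algebraMap_mem a
  | add p q hp hq => rw [map_add]; exact S.add_mem hp hq
  | mul_X p s hp => rw [map_mul, aeval_X]; exact S.mul_mem hp (hu s)

theorem sg_surjective (e : σ × τ) : Function.Surjective (sg J J' e) := by
  have h1 : ∀ x : Ch J e.1, inl J J' e x ∈ (sg J J' e).range := by
    intro x
    obtain ⟨q, rfl⟩ := aeval_frac_surjective J e.1 x
    have : inl J J' e (aeval (frac J e.1) q) =
        aeval (fun s => inl J J' e (frac J e.1 s)) q := by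
      have h := comp_aeval (frac J e.1)
        (Algebra.TensorProduct.includeLeft : Ch J e.1 →ₐ[R] TT J J' e)
      exact congrArg (fun f : MvPolynomial σ R →ₐ[R] TT J J' e => f q) h
    rw [this]
    refine aeval_mem_sub (sg J J' e).range (fun s => inl J J' e (frac J e.1 s)) (fun s => ?_) q
    refine AlgHom.mem_range _ |>.mpr ⟨frac _ e (s, e.2), ?_⟩
    rw [sg_frac, frac_self, map_one, mul_one]
  have h2 : ∀ x : Ch J' e.2, inr J J' e x ∈ (sg J J' e).range := by
    intro x
    obtain ⟨q, rfl⟩ := aeval_frac_surjective J' e.2 x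
    have : inr J J' e (aeval (frac J' e.2) q) =
        aeval (fun s => inr J J' e (frac J' e.2 s)) q := by
      have h := comp_aeval (frac J' e.2)
        (Algebra.TensorProduct.includeRight : Ch J' e.2 →ₐ[R] TT J J' e)
      exact congrArg (fun f : MvPolynomial τ R →ₐ[R] TT J J' e => f q) h
    rw [this]
    refine aeval_mem_sub (sg J J' e).range (fun s => inr J J' e (frac J' e.2 s)) (fun s => ?_) q
    refine AlgHom.mem_range _ |>.mpr ⟨frac _ e (e.1, s), ?_⟩
    rw [sg_frac, frac_self, map_one, one_mul]
  intro t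
  have : t ∈ (sg J J' e).range := by
    induction t using TensorProduct.induction_on with
    | zero => exact Subalgebra.zero_mem _
    | add x y hx hy => exact Subalgebra.add_mem _ hx hy
    | tmul x y =>
      have h3 : x ⊗ₜ[R] y = inl J J' e x * inr J J' e y := by
        change _ = (x ⊗ₜ[R] 1) * (1 ⊗ₜ[R] y)
        rw [Algebra.TensorProduct.tmul_mul_tmul, mul_one, one_mul]
      rw [h3]
      exact Subalgebra.mul_mem _ (h1 x) (h2 y)
  exact this

theorem mem_range_pc (e : σ × τ) (y : PP J J') : y ∈ Set.range (pc J J' e) ↔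
    (pullback.fst (str J) (str J')) y ∈ D J e.1 ∧ (pullback.snd (str J) (str J')) y ∈ D J' e.2 := by
  rw [← mem_range_chart, ← mem_range_chart]
  have hr := Scheme.Pullback.range_map (f := chart J e.1 ≫ str J) (g := chart J' e.2 ≫ str J')
    (str J) (str J') (chart J e.1) (chart J' e.2) (𝟙 _) (Category.comp_id _) (Category.comp_id _)
  obtain ⟨i, hi, h⟩ := pc_eq J J' e
  have h2 : Set.range (pc J J' e) = Set.range (pullback.map (chart J e.1 ≫ str J)
      (chart J' e.2 ≫ str J') (str J) (str J') (chart J e.1) (chart J' e.2) (𝟙 _)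
      (Category.comp_id _) (Category.comp_id _)) := by
    rw [h]
    ext z
    constructor
    · rintro ⟨w, rfl⟩
      exact ⟨i w, rfl⟩
    · rintro ⟨w, rfl⟩
      refine ⟨inv i w, ?_⟩
      have h3 : (inv i ≫ i ≫ pullback.map (chart J e.1 ≫ str J) (chart J' e.2 ≫ str J') (str J)
        (str J') (chart J e.1) (chart J' e.2) (𝟙 _) (Category.comp_id _)
        (Category.comp_id _)) w = (pullback.map (chart J e.1 ≫ str J) (chart J' e.2 ≫ str J')
        (str J) (str J') (chart J e.1) (chart J' e.2) (𝟙 _) (Category.comp_id _)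
        (Category.comp_id _)) w := by
        rw [IsIso.inv_hom_id_assoc]
      rw [← h3]
      rfl
  rw [h2, hr]
  exact Iff.rfl

theorem segre_mem_D (e : σ × τ) (y : PP J J') : segre J J' y ∈ D (KK σ τ R) e ↔
    (pullback.fst (str J) (str J')) y ∈ D J e.1 ∧ (pullback.snd (str J) (str J')) y ∈ D J' e.2 := by
  obtain ⟨e', z, rfl⟩ := exists_mem_pc J J' y
  have h1 : segre J J' (pc J J' e' z) =
      chart (KK σ τ R) e' (Spec.map (CommRingCat.ofHom (sg J J' e').toRingHom) z) := by
    have := pc_segre J J' e'
    have h2 := congrArg (fun q : Spec (.of (TT J J' e')) ⟶ V (KK σ τ R) => q z) this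
    exact h2
  have h2 : (pullback.fst (str J) (str J')) (pc J J' e' z) =
      chart J e'.1 (Spec.map (CommRingCat.ofHom (inl J J' e')) z) :=
    congrArg (fun q : Spec (.of (TT J J' e')) ⟶ V J => q z) (pc_fst J J' e')
  have h3 : (pullback.snd (str J) (str J')) (pc J J' e' z) =
      chart J' e'.2 (Spec.map (CommRingCat.ofHom (inr J J' e')) z) :=
    congrArg (fun q : Spec (.of (TT J J' e')) ⟶ V J' => q z) (pc_snd J J' e')
  rw [h1, h2, h3, chart_mem_D, chart_mem_D, chart_mem_D]
  change sg J J' e' (frac _ e' e) ∉ z.asIdeal ↔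
    inl J J' e' (frac J e'.1 e.1) ∉ z.asIdeal ∧ inr J J' e' (frac J' e'.2 e.2) ∉ z.asIdeal
  rw [sg_frac]
  have hp := z.isPrime
  rw [← not_or, not_iff_not]
  exact hp.mul_mem_iff_mem_or_mem

theorem preimage_D (e : σ × τ) : segre J J' ⁻¹ᵁ D (KK σ τ R) e = (pc J J' e).opensRange := by
  ext y
  exact (segre_mem_D J J' e y).trans (mem_range_pc J J' e y).symm

theorem isPullback_pc (e : σ × τ) : IsPullback (pc J J' e)
    (Spec.map (CommRingCat.ofHom (sg J J' e).toRingHom)) (segre J J') (chart (KK σ τ R) e) := by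
  apply IsPullback.flip
  apply IsOpenImmersion.isPullback
  · exact pc_segre J J' e
  · rw [opensRange_chart, preimage_D]

instance : IsClosedImmersion (segre J J') := by
  apply of_charts_target @IsClosedImmersion (KK σ τ R) (segre J J')
    (fun e => pc J J' e) (fun e => Spec.map (CommRingCat.ofHom (sg J J' e).toRingHom))
    (fun e => isPullback_pc J J' e)
  intro e
  exact IsClosedImmersion.spec_of_surjective _ (sg_surjective J J' e)

end Pool.Agent.W488.Segre
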