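import Pool.Agent.W488.Segre.Closed
import Pool.Agent.Helper198.SchP
import Pool.Agent.Helper198.CurveDefs

/-!
The product of two projective spaces is projective.
-/

open MvPolynomial AlgebraicGeometry CategoryTheory Limits TopologicalSpace

namespace Pool.Agent.W488.Segre

open Pool.Agent.Helper198.Sch Pool.Agent.Helper198.Sch.V Pool.Agent.Helper198.CurveFamily

attribute [local instance] MvPolynomial.gradedAlgebra

variable {σ : Type} {R : Type} [CommRing R]

/-- the graded map from the quotient by the zero ideal -/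
noncomputable def bk (σ R : Type) [CommRing R] :
    qgrad (⊥ : HI σ R).toIdeal →+*ᵍ homogeneousSubmodule σ R where
  toRingHom := Ideal.Quotient.lift (⊥ : HI σ R).toIdeal (RingHom.id _) (by
    intro a ha
    simpa using ha)
  map_mem := by
    intro i x hx
    obtain ⟨f, hf, rfl⟩ := mem_qgrad.1 hx
    exact hf

theorem bk_mk (f : MvPolynomial σ R) : bk σ R (Ideal.Quotient.mk _ f) = f := rfl

theorem bk_comp_ren : (bk σ R).comp (renMap (⊥ : HI σ R) (Equiv.refl σ)) =
    GradedRingHom.id (homogeneousSubmodule σ R) := by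
  refine GradedRingHom.ext fun x => ?_
  change bk σ R (Ideal.Quotient.mk _ (rename (Equiv.refl σ) x)) = x
  rw [bk_mk]
  exact rename_id_apply x

theorem ren_comp_bk : (renMap (⊥ : HI σ R) (Equiv.refl σ)).comp (bk σ R) =
    GradedRingHom.id (qgrad (⊥ : HI σ R).toIdeal) := by
  refine GradedRingHom.ext fun x => ?_
  obtain ⟨f, rfl⟩ := Ideal.Quotient.mk_surjective x
  change Ideal.Quotient.mk _ (rename (Equiv.refl σ) f) = Ideal.Quotient.mk _ f
  congr 1
  exact rename_id_apply f

theorem bk_irr : HomogeneousIdeal.irrelevant (homogeneousSubmodule σ R) ≤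
    HomogeneousIdeal.map (bk σ R) (HomogeneousIdeal.irrelevant (qgrad (⊥ : HI σ R).toIdeal)) := by
  change (HomogeneousIdeal.irrelevant (homogeneousSubmodule σ R)).toIdeal ≤ _
  refine (HomogeneousIdeal.toIdeal_irrelevant_le _).2 ?_
  intro i hi x hx
  have h1 : Ideal.Quotient.mk (⊥ : HI σ R).toIdeal x ∈
      (HomogeneousIdeal.irrelevant (qgrad (⊥ : HI σ R).toIdeal)).toIdeal :=
    HomogeneousIdeal.mem_irrelevant_of_mem _ hi (mk_mem_qgrad hx)
  exact Ideal.mem_map_of_mem (bk σ R) h1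

/-- the isomorphism of projective space with the scheme of the zero ideal -/
noncomputable def toV (σ R : Type) [CommRing R] : Proj (homogeneousSubmodule σ R) ⟶ V (⊥ : HI σ R) :=
  Proj.map (bk σ R) bk_irr

theorem toV_emb : toV σ R ≫ emb (⊥ : HI σ R) (Equiv.refl σ) = 𝟙 _ := by
  have h := Proj.map_comp (renMap (⊥ : HI σ R) (Equiv.refl σ)) (bk σ R)
    (renMap_irr (⊥ : HI σ R) (Equiv.refl σ)) bk_irr
  have h2 := Proj.map_id (𝒜 := homogeneousSubmodule σ R)
  have h3 : Proj.map ((bk σ R).comp (renMap (⊥ : HI σ R) (Equiv.refl σ)))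
      (HomogeneousIdeal.irrelevant_le_map_comp (renMap_irr (⊥ : HI σ R) (Equiv.refl σ)) bk_irr) =
      𝟙 (Proj (homogeneousSubmodule σ R)) := by
    rw [← h2]
    congr 1
    exact bk_comp_ren
  exact h.symm.trans h3

theorem emb_toV : emb (⊥ : HI σ R) (Equiv.refl σ) ≫ toV σ R = 𝟙 _ := by
  have h := Proj.map_comp (bk σ R) (renMap (⊥ : HI σ R) (Equiv.refl σ)) bk_irr
    (renMap_irr (⊥ : HI σ R) (Equiv.refl σ))
  have h2 := Proj.map_id (𝒜 := qgrad (⊥ : HI σ R).toIdeal)
  have h3 : Proj.map ((renMap (⊥ : HI σ R) (Equiv.refl σ)).comp (bk σ R))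
      (HomogeneousIdeal.irrelevant_le_map_comp bk_irr
        (renMap_irr (⊥ : HI σ R) (Equiv.refl σ))) =
      𝟙 (Proj (qgrad (⊥ : HI σ R).toIdeal)) := by
    rw [← h2]
    congr 1
    exact ren_comp_bk
  exact h.symm.trans h3

instance : IsIso (toV σ R) := ⟨emb (⊥ : HI σ R) (Equiv.refl σ), toV_emb, emb_toV⟩

/-- the isomorphism of projective space with the scheme of the zero ideal -/
noncomputable def toP (n : ℕ) (k : Type) [Field k] : PSpace n k ⟶ V (⊥ : HI (Fin (n + 1)) k) :=
  toV (Fin (n + 1)) k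

instance (n : ℕ) (k : Type) [Field k] : IsIso (toP n k) :=
  inferInstanceAs (IsIso (toV (Fin (n + 1)) k))

theorem toP_str (n : ℕ) (k : Type) [Field k] :
    toP n k ≫ V.str (⊥ : HI (Fin (n + 1)) k) = PSpace.str n k := by
  have h := emb_str (⊥ : HI (Fin (n + 1)) k) (Equiv.refl (Fin (n + 1)))
  change toV (Fin (n + 1)) k ≫ _ = _
  rw [← h, ← Category.assoc, toV_emb, Category.id_comp]
  rfl

/-- The product of two projective schemes is projective. -/
theorem isProjective_prod {k : Type} [Field k] {X Y : Scheme.{0}} {sX : X ⟶ Spec (.of k)}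
    {sY : Y ⟶ Spec (.of k)} (hX : IsProjective sX) (hY : IsProjective sY) :
    IsProjective (pullback.fst sX sY ≫ sX) := by
  obtain ⟨m, i, hi, hi2⟩ := hX
  obtain ⟨n, j, hj, hj2⟩ := hY
  let e : Fin ((m + 1) * (n + 1) - 1 + 1) ≃ Fin (m + 1) × Fin (n + 1) :=
    (finCongr (Nat.sub_add_cancel (Nat.mul_pos (Nat.succ_pos m) (Nat.succ_pos n)))).trans
      finProdFinEquiv.symm
  have e1 : sX = (i ≫ toP m k) ≫ V.str (⊥ : HI (Fin (m + 1)) k) := by
    rw [Category.assoc, toP_str, hi2]
  have e2 : sY = (j ≫ toP n k) ≫ V.str (⊥ : HI (Fin (n + 1)) k) := by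
    rw [Category.assoc, toP_str, hj2]
  let p : pullback sX sY ⟶ PP (⊥ : HI (Fin (m + 1)) k) (⊥ : HI (Fin (n + 1)) k) :=
    pullback.map _ _ _ _ (i ≫ toP m k) (j ≫ toP n k) (𝟙 _)
      (by rw [Category.comp_id]; exact e1) (by rw [Category.comp_id]; exact e2)
  have c1 : IsClosedImmersion (i ≫ toP m k) := inferInstance
  have c2 : IsClosedImmersion (j ≫ toP n k) := inferInstance
  have m0 : MorphismProperty.IsMultiplicative (C := Scheme.{0}) @IsClosedImmersion := inferInstance
  have m1 : MorphismProperty.IsStableUnderComposition (C := Scheme.{0}) @IsClosedImmersion :=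
    m0.toIsStableUnderComposition
  have hp : IsClosedImmersion p :=
    MorphismProperty.pullbackMap (C := Scheme.{0}) (P := @IsClosedImmersion) c1 c2 e1 e2
  let s : PP (⊥ : HI (Fin (m + 1)) k) (⊥ : HI (Fin (n + 1)) k) ⟶
    V (KK (Fin (m + 1)) (Fin (n + 1)) k) := segre _ _
  have hs : IsClosedImmersion s := inferInstanceAs (IsClosedImmersion (segre _ _))
  let q : V (KK (Fin (m + 1)) (Fin (n + 1)) k) ⟶ PSpace ((m + 1) * (n + 1) - 1) k :=
    emb (KK (Fin (m + 1)) (Fin (n + 1)) k) e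
  have hq : IsClosedImmersion q :=
    inferInstanceAs (IsClosedImmersion (emb (KK (Fin (m + 1)) (Fin (n + 1)) k) e))
  have hqs : q ≫ PSpace.str _ k = V.str _ := emb_str (KK (Fin (m + 1)) (Fin (n + 1)) k) e
  have hss : s ≫ V.str _ = pullback.fst _ _ ≫ V.str _ := segre_str _ _
  refine ⟨(m + 1) * (n + 1) - 1, p ≫ s ≫ q, inferInstance, ?_⟩
  have hpf : p ≫ pullback.fst _ _ = pullback.fst sX sY ≫ (i ≫ toP m k) :=
    pullback.lift_fst _ _ _
  calc (p ≫ s ≫ q) ≫ PSpace.str _ k = p ≫ s ≫ (q ≫ PSpace.str _ k) := by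
        simp only [Category.assoc]
    _ = p ≫ (s ≫ V.str _) := by rw [hqs]
    _ = (p ≫ pullback.fst _ _) ≫ V.str _ := by rw [hss, Category.assoc]
    _ = pullback.fst sX sY ≫ ((i ≫ toP m k) ≫ V.str _) := by
        rw [hpf, Category.assoc]
    _ = pullback.fst sX sY ≫ sX := by rw [← e1]

/-- Segre: the product of two projective spaces is projective. -/
theorem segre_projective (m n : ℕ) (k : Type) [Field k] : ∃ (N : ℕ)
    (i : pullback (PSpace.str m k) (PSpace.str n k) ⟶ PSpace N k),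
    IsClosedImmersion i ∧ i ≫ PSpace.str N k = pullback.fst _ _ ≫ PSpace.str m k :=
  isProjective_prod ⟨m, 𝟙 _, inferInstance, Category.id_comp _⟩
    ⟨n, 𝟙 _, inferInstance, Category.id_comp _⟩

end Pool.Agent.W488.Segre
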