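import Pool.Agent.W488.Segre.Pts

/-!
The Segre morphism `V J ×_R V J' ⟶ ℙ(σ × τ)`.
-/

open MvPolynomial AlgebraicGeometry CategoryTheory Limits TopologicalSpace TensorProduct

namespace Pool.Agent.W488.Segre

open Pool.Agent.Helper198.Sch Pool.Agent.Helper198.Sch.V

attribute [local instance] MvPolynomial.gradedAlgebra

variable {σ τ : Type} {R : Type} [CommRing R] (J : HI σ R) (J' : HI τ R)

/-- the product -/
noncomputable abbrev PP : Scheme.{0} := pullback (str J) (str J')

/-- the ring of a chart of the product -/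
abbrev TT (e : σ × τ) : Type := Ch J e.1 ⊗[R] Ch J' e.2

noncomputable def inl (e : σ × τ) : Ch J e.1 →+* TT J J' e :=
  Algebra.TensorProduct.includeLeftRingHom

noncomputable def inr (e : σ × τ) : Ch J' e.2 →+* TT J J' e :=
  (Algebra.TensorProduct.includeRight : Ch J' e.2 →ₐ[R] TT J J' e).toRingHom

theorem inl_inr_alg (e : σ × τ) (r : R) :
    inl J J' e (algebraMap R _ r) = inr J J' e (algebraMap R _ r) := by
  have h1 : inr J J' e (algebraMap R _ r) = algebraMap R (TT J J' e) r :=
    (Algebra.TensorProduct.includeRight : Ch J' e.2 →ₐ[R] TT J J' e).commutes r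
  have h2 : inl J J' e (algebraMap R _ r) = algebraMap R (TT J J' e) r :=
    (Algebra.TensorProduct.includeLeft : Ch J e.1 →ₐ[R] TT J J' e).commutes r
  rw [h1, h2]

/-- the chart of the product -/
noncomputable def pc (e : σ × τ) : Spec (.of (TT J J' e)) ⟶ PP J J' :=
  pullback.lift (Spec.map (CommRingCat.ofHom (inl J J' e)) ≫ chart J e.1)
    (Spec.map (CommRingCat.ofHom (inr J J' e)) ≫ chart J' e.2) (by
      rw [Category.assoc, Category.assoc, chart_str, chart_str, ← Spec.map_comp, ← Spec.map_comp,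
        ← CommRingCat.ofHom_comp, ← CommRingCat.ofHom_comp]
      congr 2
      ext r
      exact inl_inr_alg J J' e r)

theorem pc_fst (e : σ × τ) : pc J J' e ≫ pullback.fst (str J) (str J') =
    Spec.map (CommRingCat.ofHom (inl J J' e)) ≫ chart J e.1 := pullback.lift_fst _ _ _

theorem pc_snd (e : σ × τ) : pc J J' e ≫ pullback.snd (str J) (str J') =
    Spec.map (CommRingCat.ofHom (inr J J' e)) ≫ chart J' e.2 := pullback.lift_snd _ _ _

/-- the chart of the product as a composition with an isomorphism -/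
theorem pc_eq (e : σ × τ) : ∃ i : Spec (.of (TT J J' e)) ⟶
    pullback (chart J e.1 ≫ str J) (chart J' e.2 ≫ str J'), IsIso i ∧
    pc J J' e = i ≫ pullback.map _ _ _ _ (chart J e.1) (chart J' e.2) (𝟙 _)
      (Category.comp_id _) (Category.comp_id _) := by
  refine ⟨(pullbackSpecIso R (Ch J e.1) (Ch J' e.2)).inv ≫
    (pullback.congrHom (chart_str J e.1) (chart_str J' e.2)).inv, inferInstance, ?_⟩
  apply pullback.hom_ext
  · rw [pc_fst]
    simp only [Category.assoc, pullback.lift_fst, pullback.map]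
    rw [pullback.congrHom_inv]
    simp only [pullback.map, pullback.lift_fst_assoc, Category.comp_id]
    rw [← Category.assoc, pullbackSpecIso_inv_fst]
    rfl
  · rw [pc_snd]
    simp only [Category.assoc, pullback.lift_snd, pullback.map]
    rw [pullback.congrHom_inv]
    simp only [pullback.map, pullback.lift_snd_assoc, Category.comp_id]
    rw [← Category.assoc, pullbackSpecIso_inv_snd]
    rfl

instance (e : σ × τ) : IsOpenImmersion (pc J J' e) := by
  obtain ⟨i, hi, h⟩ := pc_eq J J' e
  rw [h]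
  infer_instance

theorem exists_mem_pc (y : PP J J') : ∃ e, y ∈ Set.range (pc J J' e) := by
  have hcov : ∃ (e : σ × τ) (z : ↥(pullback (chart J e.1 ≫ str J) (chart J' e.2 ≫ str J'))),
      pullback.map (chart J e.1 ≫ str J) (chart J' e.2 ≫ str J') (str J) (str J') (chart J e.1)
        (chart J' e.2) (𝟙 _) (Category.comp_id _) (Category.comp_id _) z = y :=
    (Scheme.Pullback.openCoverOfLeftRight (cover J).openCover (cover J').openCover
      (str J) (str J')).exists_eq y
  obtain ⟨e, z, hz⟩ := hcov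
  refine ⟨e, ?_⟩
  obtain ⟨i, hi, h⟩ := pc_eq J J' e
  refine ⟨inv i z, ?_⟩
  rw [h]
  have h2 : (inv i ≫ i ≫ pullback.map (chart J e.1 ≫ str J) (chart J' e.2 ≫ str J') (str J) (str J')
    (chart J e.1) (chart J' e.2) (𝟙 _) (Category.comp_id _) (Category.comp_id _)) z = y := by
    rw [IsIso.inv_hom_id_assoc]
    exact hz
  rw [← h2]
  rfl

/-- the cover of the product -/
noncomputable def pcover : (PP J J').AffineOpenCover where
  I₀ := σ × τ
  X e := .of (TT J J' e)
  f e := pc J J' e
  idx y := (exists_mem_pc J J' y).choose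
  covers y := (exists_mem_pc J J' y).choose_spec

/-- the target -/
noncomputable abbrev KK (σ τ R : Type) [CommRing R] : HI (σ × τ) R := ⊥

/-- the ring map of a chart of the Segre morphism -/
noncomputable def sg (e : σ × τ) : Ch (KK σ τ R) e →ₐ[R] TT J J' e :=
  chLift (KK σ τ R) e (fun s => frac J e.1 s.1 ⊗ₜ[R] frac J' e.2 s.2)
    (by simp only [frac_self]; rfl)
    (by
      intro f hf
      have : f = 0 := by simpa using hf
      rw [this, map_zero])

theorem sg_frac (e s : σ × τ) :
    sg J J' e (frac (KK σ τ R) e s) = inl J J' e (frac J e.1 s.1) * inr J J' e (frac J' e.2 s.2) := by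
  rw [sg, chLift_frac]
  change _ = (frac J e.1 s.1 ⊗ₜ[R] 1) * (1 ⊗ₜ[R] frac J' e.2 s.2)
  rw [Algebra.TensorProduct.tmul_mul_tmul, mul_one, one_mul]

/-- a chart of the Segre morphism -/
noncomputable def sgc (e : σ × τ) : Spec (.of (TT J J' e)) ⟶ V (KK σ τ R) :=
  Spec.map (CommRingCat.ofHom (sg J J' e).toRingHom) ≫ chart (KK σ τ R) e

theorem compat {E : Type} [CommRing E] (e e' : σ × τ) (φ : TT J J' e →+* E)
    (φ' : TT J J' e' →+* E)
    (h : Spec.map (CommRingCat.ofHom φ) ≫ pc J J' e = Spec.map (CommRingCat.ofHom φ') ≫ pc J J' e') :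
    Spec.map (CommRingCat.ofHom φ) ≫ sgc J J' e = Spec.map (CommRingCat.ofHom φ') ≫ sgc J J' e' := by
  have h1 := congrArg (fun q => q ≫ pullback.fst (str J) (str J')) h
  have h2 := congrArg (fun q => q ≫ pullback.snd (str J) (str J')) h
  simp only [Category.assoc, pc_fst, pc_snd] at h1 h2
  rw [← Category.assoc, ← Category.assoc, ← Spec.map_comp, ← Spec.map_comp,
    ← CommRingCat.ofHom_comp, ← CommRingCat.ofHom_comp] at h1 h2
  obtain ⟨a1, a2⟩ := pts_eq_imp J e.1 e'.1 _ _ h1
  obtain ⟨b1, b2⟩ := pts_eq_imp J' e.2 e'.2 _ _ h2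
  rw [sgc, sgc, ← Category.assoc, ← Category.assoc, ← Spec.map_comp, ← Spec.map_comp,
    ← CommRingCat.ofHom_comp, ← CommRingCat.ofHom_comp]
  refine pts_eq_of (KK σ τ R) e e' _ _ (fun r => ?_)
    (φ (inl J J' e (frac J e.1 e'.1)) * φ (inr J J' e (frac J' e.2 e'.2))) (fun s => ?_)
  · change φ (sg J J' e (algebraMap R _ r)) = φ' (sg J J' e' (algebraMap R _ r))
    rw [AlgHom.commutes, AlgHom.commutes]
    have c1 : inl J J' e (algebraMap R _ r) = algebraMap R (TT J J' e) r :=
      (Algebra.TensorProduct.includeLeft : Ch J e.1 →ₐ[R] TT J J' e).commutes r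
    have c2 : inl J J' e' (algebraMap R _ r) = algebraMap R (TT J J' e') r :=
      (Algebra.TensorProduct.includeLeft : Ch J e'.1 →ₐ[R] TT J J' e').commutes r
    rw [← c1, ← c2]
    exact a1 r
  · change φ (sg J J' e (frac _ e s)) = _ * φ' (sg J J' e' (frac _ e' s))
    rw [sg_frac, sg_frac, map_mul, map_mul]
    have a3 := a2 s.1
    have b3 := b2 s.2
    simp only [RingHom.comp_apply] at a3 b3
    rw [a3, b3]
    ring

theorem compat' {T : Scheme.{0}} (e e' : σ × τ) (p : T ⟶ Spec (.of (TT J J' e)))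
    (p' : T ⟶ Spec (.of (TT J J' e'))) (h : p ≫ pc J J' e = p' ≫ pc J J' e') :
    p ≫ sgc J J' e = p' ≫ sgc J J' e' := by
  apply T.affineCover.hom_ext
  intro x
  rw [← Category.assoc, ← Category.assoc]
  have h1 := compat J J' e e' (Spec.preimage (T.affineCover.f x ≫ p)).hom
    (Spec.preimage (T.affineCover.f x ≫ p')).hom (by
      rw [CommRingCat.ofHom_hom, CommRingCat.ofHom_hom, Spec.map_preimage, Spec.map_preimage]
      exact (Category.assoc _ _ _).trans
        ((congrArg (fun q => T.affineCover.f x ≫ q) h).trans (Category.assoc _ _ _).symm))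
  rw [CommRingCat.ofHom_hom, CommRingCat.ofHom_hom, Spec.map_preimage, Spec.map_preimage] at h1
  exact h1

/-- the Segre morphism -/
noncomputable def segre : PP J J' ⟶ V (KK σ τ R) :=
  (pcover J J').openCover.glueMorphisms (fun e => sgc J J' e)
    (fun e e' => compat' J J' e e' _ _ pullback.condition)

theorem pc_segre (e : σ × τ) : pc J J' e ≫ segre J J' = sgc J J' e :=
  Scheme.Cover.ι_glueMorphisms (pcover J J').openCover _ _ e

theorem segre_str : segre J J' ≫ str (KK σ τ R) = pullback.fst _ _ ≫ str J := by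
  apply (pcover J J').openCover.hom_ext
  intro (e : σ × τ)
  change pc J J' e ≫ _ = pc J J' e ≫ _
  rw [← Category.assoc, pc_segre, ← Category.assoc, pc_fst, sgc, Category.assoc, Category.assoc,
    chart_str, chart_str, ← Spec.map_comp, ← Spec.map_comp, ← CommRingCat.ofHom_comp,
    ← CommRingCat.ofHom_comp]
  congr 2
  ext r
  change sg J J' e (algebraMap R _ r) = inl J J' e (algebraMap R _ r)
  rw [AlgHom.commutes]
  exact ((Algebra.TensorProduct.includeLeft : Ch J e.1 →ₐ[R] TT J J' e).commutes r).symm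

end Pool.Agent.W488.Segre
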