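import Pool.Agent.Helper198.SchO

/-!
Points of the projective scheme `V J` with values in a ring, in terms of charts.
-/

open MvPolynomial AlgebraicGeometry CategoryTheory Limits TopologicalSpace

namespace Pool.Agent.W488.Segre

open Pool.Agent.Helper198.Sch Pool.Agent.Helper198.Sch.V

attribute [local instance] MvPolynomial.gradedAlgebra


section general

variable {A : Type} [CommRing A] {τ : Type} [SetLike τ A] [AddSubgroupClass τ A] {𝒜 : ℕ → τ}
  [GradedRing 𝒜]

theorem exists_factor_gen {E : Type} [CommRing E] {f g : A} {m m' : ℕ} (f_deg : f ∈ 𝒜 m)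
    (hm : 0 < m) (g_deg : g ∈ 𝒜 m') (hm' : 0 < m')
    (α : HomogeneousLocalization.Away 𝒜 f →+* E) (α' : HomogeneousLocalization.Away 𝒜 g →+* E)
    (h : Spec.map (CommRingCat.ofHom α) ≫ Proj.awayι 𝒜 f f_deg hm =
      Spec.map (CommRingCat.ofHom α') ≫ Proj.awayι 𝒜 g g_deg hm') :
    ∃ β : HomogeneousLocalization.Away 𝒜 (f * g) →+* E,
      β.comp (HomogeneousLocalization.awayMap 𝒜 g_deg rfl) = α ∧
      β.comp (HomogeneousLocalization.awayMap 𝒜 f_deg (mul_comm _ _)) = α' := by
  let q : Spec (.of E) ⟶ Spec (.of (HomogeneousLocalization.Away 𝒜 (f * g))) :=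
    pullback.lift _ _ h ≫ (Proj.pullbackAwayιIso 𝒜 f_deg hm g_deg hm' rfl).hom
  have h1 : q ≫ Spec.map (CommRingCat.ofHom (HomogeneousLocalization.awayMap 𝒜 g_deg rfl)) =
      Spec.map (CommRingCat.ofHom α) := by
    have := Proj.pullbackAwayιIso_hom_SpecMap_awayMap_left 𝒜 f_deg hm g_deg hm' rfl
    change (pullback.lift _ _ h ≫ _) ≫ _ = _
    rw [Category.assoc, this]
    exact pullback.lift_fst _ _ _
  have h2 : q ≫ Spec.map (CommRingCat.ofHom (HomogeneousLocalization.awayMap 𝒜 f_deg
      (mul_comm _ _))) = Spec.map (CommRingCat.ofHom α') := by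
    have := Proj.pullbackAwayιIso_hom_SpecMap_awayMap_right 𝒜 f_deg hm g_deg hm' rfl
    change (pullback.lift _ _ h ≫ _) ≫ _ = _
    rw [Category.assoc, this]
    exact pullback.lift_snd _ _ _
  refine ⟨(Spec.preimage q).hom, ?_, ?_⟩
  · rw [← Spec.map_preimage q, ← Spec.map_comp] at h1
    have := Spec.map_injective h1
    exact congrArg CommRingCat.Hom.hom this
  · rw [← Spec.map_preimage q, ← Spec.map_comp] at h2
    have := Spec.map_injective h2
    exact congrArg CommRingCat.Hom.hom this

end general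

variable {σ : Type} {R : Type} [CommRing R]

/-- chart ring of the intersection of two charts -/
abbrev Ch2 (J : HI σ R) (c c' : σ) : Type :=
  HomogeneousLocalization.Away (qgrad J.toIdeal) (gen J c * gen J c')

noncomputable def i1 (J : HI σ R) (c c' : σ) : Ch J c →+* Ch2 J c c' :=
  HomogeneousLocalization.awayMap (qgrad J.toIdeal) (gen_mem J c') rfl

noncomputable def i2 (J : HI σ R) (c c' : σ) : Ch J c' →+* Ch2 J c c' :=
  HomogeneousLocalization.awayMap (qgrad J.toIdeal) (gen_mem J c) (mul_comm _ _)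

theorem i12_frac (J : HI σ R) (c c' s : σ) :
    i1 J c c' (frac J c s) = i1 J c c' (frac J c c') * i2 J c c' (frac J c' s) := by
  apply HomogeneousLocalization.val_injective
  have e1 : ∀ s, (i1 J c c' (frac J c s)).val = Localization.mk (gen J s * gen J c' ^ 1)
      (⟨(gen J c * gen J c') ^ 1, ⟨1, rfl⟩⟩ : Submonoid.powers (gen J c * gen J c')) := fun s =>
    HomogeneousLocalization.val_awayMap_mk (qgrad J.toIdeal) (gen_mem J c') rfl 1
      ⟨gen J s, gen_mem J s⟩ 1 _
  have e2 : (i2 J c c' (frac J c' s)).val = Localization.mk (gen J s * gen J c ^ 1)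
      (⟨(gen J c * gen J c') ^ 1, ⟨1, rfl⟩⟩ : Submonoid.powers (gen J c * gen J c')) :=
    HomogeneousLocalization.val_awayMap_mk (qgrad J.toIdeal) (gen_mem J c) (mul_comm _ _) 1
      ⟨gen J s, gen_mem J s⟩ 1 _
  rw [HomogeneousLocalization.val_mul, e1, e1, e2,
    Localization.mk_mul, Localization.mk_eq_mk_iff, Localization.r_iff_exists]
  refine ⟨1, ?_⟩
  simp only [OneMemClass.coe_one, one_mul, Submonoid.coe_mul, pow_one]
  ring

theorem i12_alg (J : HI σ R) (c c' : σ) (r : R) :
    i1 J c c' (algebraMap R (Ch J c) r) = i2 J c c' (algebraMap R (Ch J c') r) := by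
  have h1 : i1 J c c' (algebraMap R (Ch J c) r) =
      HomogeneousLocalization.fromZeroRingHom (qgrad J.toIdeal) _
        (algebraMap R (qgrad J.toIdeal 0) r) :=
    HomogeneousLocalization.awayMap_fromZeroRingHom _ _ _ _
  have h2 : i2 J c c' (algebraMap R (Ch J c') r) =
      HomogeneousLocalization.fromZeroRingHom (qgrad J.toIdeal) _
        (algebraMap R (qgrad J.toIdeal 0) r) :=
    HomogeneousLocalization.awayMap_fromZeroRingHom _ _ _ _
  rw [h1, h2]

/-- the chart of the intersection -/
noncomputable def chart2 (J : HI σ R) (c c' : σ) : Spec (.of (Ch2 J c c')) ⟶ V J :=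
  Proj.awayι (qgrad J.toIdeal) (gen J c * gen J c')
    (SetLike.mul_mem_graded (gen_mem J c) (gen_mem J c')) (by norm_num)

theorem i1_chart (J : HI σ R) (c c' : σ) :
    Spec.map (CommRingCat.ofHom (i1 J c c')) ≫ chart J c = chart2 J c c' :=
  Proj.SpecMap_awayMap_awayι (qgrad J.toIdeal) (gen_mem J c) one_pos (gen_mem J c') rfl

theorem i2_chart (J : HI σ R) (c c' : σ) :
    Spec.map (CommRingCat.ofHom (i2 J c c')) ≫ chart J c' = chart2 J c c' :=
  Proj.SpecMap_awayMap_awayι (qgrad J.toIdeal) (gen_mem J c') one_pos (gen_mem J c)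
    (mul_comm _ _)

variable {E : Type} [CommRing E]

/-- If two ring valued points of charts have the same image then they factor through the
intersection of the charts. -/
theorem exists_factor (J : HI σ R) (c c' : σ) (α : Ch J c →+* E) (α' : Ch J c' →+* E)
    (h : Spec.map (CommRingCat.ofHom α) ≫ chart J c =
      Spec.map (CommRingCat.ofHom α') ≫ chart J c') :
    ∃ β : Ch2 J c c' →+* E, β.comp (i1 J c c') = α ∧ β.comp (i2 J c c') = α' := by
  exact exists_factor_gen (gen_mem J c) one_pos (gen_mem J c') one_pos α α' h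

/-- necessary condition for two points of charts to agree -/
theorem pts_eq_imp (J : HI σ R) (c c' : σ) (α : Ch J c →+* E) (α' : Ch J c' →+* E)
    (h : Spec.map (CommRingCat.ofHom α) ≫ chart J c =
      Spec.map (CommRingCat.ofHom α') ≫ chart J c') :
    (∀ r, α (algebraMap R (Ch J c) r) = α' (algebraMap R (Ch J c') r)) ∧
      ∀ s, α (frac J c s) = α (frac J c c') * α' (frac J c' s) := by
  obtain ⟨β, rfl, rfl⟩ := exists_factor J c c' α α' h
  refine ⟨fun r => ?_, fun s => ?_⟩
  · rw [RingHom.comp_apply, RingHom.comp_apply, i12_alg]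
  · rw [RingHom.comp_apply, RingHom.comp_apply, RingHom.comp_apply, ← map_mul, i12_frac]

/-- sufficient condition for two points of charts to agree -/
theorem pts_eq_of (J : HI σ R) (c c' : σ) (α : Ch J c →+* E) (α' : Ch J c' →+* E)
    (h1 : ∀ r, α (algebraMap R (Ch J c) r) = α' (algebraMap R (Ch J c') r))
    (u : E) (h2 : ∀ s, α (frac J c s) = u * α' (frac J c' s)) :
    Spec.map (CommRingCat.ofHom α) ≫ chart J c = Spec.map (CommRingCat.ofHom α') ≫ chart J c' := by
  have hu1 : α (frac J c c') = u := by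
    rw [h2, frac_self, map_one, mul_one]
  have hu2 : u * α' (frac J c' c) = 1 := by
    rw [← h2, frac_self, map_one]
  have hu : IsUnit (α (frac J c c')) := by
    rw [hu1]; exact IsUnit.of_mul_eq_one _ hu2
  let _ := (i1 J c c').toAlgebra
  have : IsLocalization.Away (frac J c c') (Ch2 J c c') := by
    have := HomogeneousLocalization.Away.isLocalization_mul (gen_mem J c) (gen_mem J c') rfl
      (one_ne_zero)
    rw [isLocalizationElem_eq] at this
    exact this
  let β : Ch2 J c c' →+* E := IsLocalization.Away.lift (frac J c c') hu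
  have hβ1 : β.comp (i1 J c c') = α := IsLocalization.Away.lift_comp (frac J c c') hu
  have hβ2 : β.comp (i2 J c c') = α' := by
    apply ch_ringHom_ext
    · intro r
      rw [RingHom.comp_apply, ← i12_alg, ← RingHom.comp_apply, hβ1, h1]
    · intro s
      have h3 := congrArg β (i12_frac J c c' s)
      rw [map_mul, ← RingHom.comp_apply, ← RingHom.comp_apply, ← RingHom.comp_apply, hβ1, h2 s,
        hu1] at h3
      have huu : IsUnit u := IsUnit.of_mul_eq_one _ hu2
      exact (huu.mul_left_cancel h3).symm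
  rw [← hβ1, ← hβ2, CommRingCat.ofHom_comp, CommRingCat.ofHom_comp, Spec.map_comp, Spec.map_comp,
    Category.assoc, Category.assoc, i1_chart, i2_chart]

end Pool.Agent.W488.Segre
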